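import Pool.Agent.Run7.h485.HighDJump

/-!
# The percolation function of random interlacements at the critical level, in high dimension

There is a constant `C` such that for every dimension `d ≥ 3` and every level `u > 0` above which
`θ` vanishes (so for every `u ≥ u_*(d)`, and in particular for `u = u_*(d)`),
`θ(u) ≤ C d ^ (-1/4) P(0 is vacant at level u)` and `θ(u) ≤ C d ^ (-5/4)`.

So the jump of `θ` at the critical level is at most `C d ^ (-5/4)`, and the conditional probability
that `0` percolates, given that it is vacant, is at most `C d ^ (-1/4)` at the critical level.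

The first clause of the statement records that the law of random interlacements, which
`interlacement d s` selects, exists at every level `s ≥ 0`.
-/

namespace Pool.Agent.Results.MP_b849df_pr.HighDimJump

open Run7.h485
open Pool.Agent.H282R3.RW (V)

theorem result : ∃ C : ℝ, ∀ (d : ℕ) [NeZero d], 3 ≤ d →
    (∀ s : ℝ, 0 ≤ s → IsInterlacement s (interlacement d s)) ∧
    ∀ u : ℝ, 0 < u → (∀ v : ℝ, u < v → theta d v = 0) →
      theta d u ≤ C * (d : ℝ) ^ (-(1 / 4) : ℝ) * Real.exp (-(u * cap ({0} : Finset (V d)))) ∧
        theta d u ≤ C * (d : ℝ) ^ (-(5 / 4) : ℝ) := by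
  obtain ⟨C, hC⟩ := high_dim_jump
  exact ⟨C, fun d _ hd => ⟨fun _ hs => interlacement_spec hs, fun u hu hv => hC d hd u hu hv⟩⟩

end Pool.Agent.Results.MP_b849df_pr.HighDimJump
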