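import Pool.Agent.Run7.h485.Inter

/-!
# A formula for the jump of the percolation function of random interlacements

For `d ≥ 3` and `u > 0`, the jump `J = θ(u) - θ(u+)` is the limit, as `v ↓ u`, of the probability
at level `v` that the vacant cluster of `0` is finite with capacity at least `κ / (v - u) ^ 2`;
here `κ > 0` is arbitrary.  The function `θ` is continuous at `u` if and only if `J = 0`.

The first clause of the statement records that the law of random interlacements, which
`interlacement d s` selects, exists at every level `s ≥ 0`.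
-/

namespace Pool.Agent.Results.MP_b849df_pr.JumpFormula

open Filter Topology Run7.h485
open Pool.Agent.H282R3.RW (V)

theorem result (d : ℕ) [NeZero d] (hd : 3 ≤ d) (u : ℝ) (hu : 0 < u) :
    (∀ s : ℝ, 0 ≤ s → IsInterlacement s (interlacement d s)) ∧
    ∃ J : ℝ, Tendsto (fun v => theta d u - theta d v) (𝓝[>] u) (𝓝 J) ∧
      (ContinuousAt (theta d) u ↔ J = 0) ∧
      ∀ κ : ℝ, 0 < κ → Tendsto (fun v => (interlacement d v).real
        {I | ∃ K : Finset (V d), cluster Iᶜ 0 = K ∧ κ / (v - u) ^ 2 ≤ cap K}) (𝓝[>] u) (𝓝 J) :=
  ⟨fun _ hs => interlacement_spec hs, theta_jump hd hu⟩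

end Pool.Agent.Results.MP_b849df_pr.JumpFormula
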