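import Pool.Agent.Run7.h485.PlaneFin

/-!
# The vacant set of random interlacements in a plane has a continuous phase transition, `d ≥ 7`

For `d ≥ 7`, let `θ_pl(u)` be the probability that `0` lies in an infinite connected component of
the intersection of the vacant set at level `u` with the coordinate plane `ℤ ^ 2 ⊆ ℤ ^ d`.  Then
`θ_pl` is continuous on `(0, ∞)`, and there is a critical level `uc ∈ (0, ∞)` such that `θ_pl` is
positive on `(0, uc)` and vanishes on `[uc, ∞)`; in particular `θ_pl(uc) = 0`.

The first clause of the statement records that the law of random interlacements, which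
`interlacement d s` selects, exists at every level `s ≥ 0`.
-/

namespace Pool.Agent.Results.MP_b849df_pr.PlaneContinuity

open Run7.h485
open Pool.Agent.H282R3.RW (V)

theorem result (d : ℕ) [NeZero d] (hd : 7 ≤ d) :
    (∀ s : ℝ, 0 ≤ s → IsInterlacement s (interlacement d s)) ∧
    ContinuousOn (thetaPlane d) (Set.Ioi 0) ∧
    ∃ uc : ℝ, 0 < uc ∧ (∀ u : ℝ, 0 < u → u < uc → 0 < thetaPlane d u) ∧
      ∀ u : ℝ, uc ≤ u → thetaPlane d u = 0 :=
  ⟨fun _ hs => interlacement_spec hs, thetaPlane_continuousOn hd, thetaPlane_critical hd⟩

end Pool.Agent.Results.MP_b849df_pr.PlaneContinuity
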